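import Pool.Agent.H41.RF.KGR

/-!
# Duhamel double integrals: product form, Fubini, semigroup identity
-/

open MeasureTheory Set Filter Topology Metric
open Pool.Agent.H29.TF (hk P hk_pos hk_nonneg integrable_hk_sub integral_hk_sub semigroup_hk)
open Pool.Agent.H91.RD Pool.Agent.H91.RF

namespace Pool.Agent.H41.RF.KGR

variable {N : ℕ}

/-- `W` is measurable on times `> s` and dominated by `Θ` on `(s,b)` -/
structure Dom (s b : ℝ) (Θ W : ℝ → E N → ℝ) : Prop where
  rep : Rep s Θ
  meas : Measurable (fun p : ℝ × E N => if s < p.1 then W p.1 p.2 else 0)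
  le : ∀ r, s < r → r < b → ∀ x, |W r x| ≤ Θ r x

theorem Dom.mono {s b b' : ℝ} {Θ W : ℝ → E N → ℝ} (h : Dom s b Θ W) (hb : b' ≤ b) :
    Dom s b' Θ W := ⟨h.rep, h.meas, fun r h1 h2 => h.le r h1 (h2.trans_le hb)⟩

/-- the time-space measure on `(s,t) × E` -/
noncomputable abbrev mu (N : ℕ) (s t : ℝ) : Measure (ℝ × E N) :=
  (volume.restrict (Ioo s t)).prod volume

theorem ae_mu (s t : ℝ) : ∀ᵐ p : ℝ × E N ∂(mu N s t), s < p.1 ∧ p.1 < t := by
  have h : mu N s t = (volume.prod volume).restrict (Ioo s t ×ˢ univ) := by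
    rw [← Measure.prod_restrict, Measure.restrict_univ]
  rw [h]
  refine (ae_restrict_iff' (measurableSet_Ioo.prod MeasurableSet.univ)).2
    (Filter.Eventually.of_forall fun p hp => hp.1)

theorem Dom.aesm {s b t : ℝ} {Θ W : ℝ → E N → ℝ} (h : Dom s b Θ W) (x : E N) (r : ℝ) :
    AEStronglyMeasurable (fun p : ℝ × E N => hk (r - p.1) (x - p.2) * W p.1 p.2) (mu N s t) := by
  have h1 : Measurable (fun p : ℝ × E N => hk (r - p.1) (x - p.2) *
      (if s < p.1 then W p.1 p.2 else 0)) := by
    refine Measurable.mul ?_ h.meas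
    exact Pool.Agent.H29.TF.measurable_hk_uncurry.comp
      (by fun_prop : Measurable fun p : ℝ × E N => (r - p.1, x - p.2))
  refine h1.aestronglyMeasurable.congr ?_
  filter_upwards [ae_mu (N := N) s t] with p hp
  rw [if_pos hp.1]

theorem Dom.meas_slice {s b : ℝ} {Θ W : ℝ → E N → ℝ} (h : Dom s b Θ W) {r : ℝ} (hr : s < r) :
    Measurable (W r) := by
  have h1 := h.meas.comp (by fun_prop : Measurable fun x : E N => (r, x))
  have e : ((fun p : ℝ × E N => if s < p.1 then W p.1 p.2 else 0) ∘ fun x : E N => (r, x)) =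
      W r := by
    funext x; simp [hr]
  rwa [e] at h1

theorem Dom.int_slice {s b : ℝ} {Θ W : ℝ → E N → ℝ} (h : Dom s b Θ W) {r t : ℝ} (hr : s < r)
    (hrb : r < b) (hrt : r < t) (x : E N) :
    Integrable (fun z => hk (t - r) (x - z) * W r z) := by
  refine (h.rep.int r t hr hrt x).mono' ?_ ?_
  · exact (Continuous.aestronglyMeasurable (by fun_prop)).mul
      (h.meas_slice hr).aestronglyMeasurable
  · refine Filter.Eventually.of_forall fun z => ?_
    rw [norm_mul, Real.norm_of_nonneg (hk_nonneg (by linarith) _)]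
    exact mul_le_mul_of_nonneg_left (h.le r hr hrb z) (hk_nonneg (by linarith) _)

theorem Dom.abs_slice_le {s b : ℝ} {Θ W : ℝ → E N → ℝ} (h : Dom s b Θ W) {r t : ℝ} (hr : s < r)
    (hrb : r < b) (hrt : r < t) (x : E N) :
    ∫ z, ‖hk (t - r) (x - z) * W r z‖ ≤ Θ t x := by
  rw [← h.rep.rep r t hr hrt x]
  apply integral_mono_of_nonneg (Filter.Eventually.of_forall fun z => norm_nonneg _)
    (h.rep.int r t hr hrt x)
  refine Filter.Eventually.of_forall fun z => ?_
  simp only
  rw [norm_mul, Real.norm_of_nonneg (hk_nonneg (by linarith) _)]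
  exact mul_le_mul_of_nonneg_left (h.le r hr hrb z) (hk_nonneg (by linarith) _)

/-- (1) integrability on the product -/
theorem Dom.int {s b : ℝ} {Θ W : ℝ → E N → ℝ} (h : Dom s b Θ W) {r t : ℝ}
    (hrb : r ≤ b) (hrt : r ≤ t) (x : E N) :
    Integrable (fun p : ℝ × E N => hk (t - p.1) (x - p.2) * W p.1 p.2) (mu N s r) := by
  rw [integrable_prod_iff (h.aesm x t)]
  constructor
  · refine (ae_restrict_iff' measurableSet_Ioo).2 (Filter.Eventually.of_forall fun q hq => ?_)
    exact h.int_slice hq.1 (hq.2.trans_le hrb) (hq.2.trans_le hrt) x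
  · refine Integrable.mono' (g := fun _ => Θ t x) (by simp) ?_ ?_
    · exact (h.aesm x t).norm.integral_prod_right'
    · refine (ae_restrict_iff' measurableSet_Ioo).2 (Filter.Eventually.of_forall fun q hq => ?_)
      rw [Real.norm_of_nonneg (integral_nonneg fun _ => norm_nonneg _)]
      exact h.abs_slice_le hq.1 (hq.2.trans_le hrb) (hq.2.trans_le hrt) x

/-- (2) double integral = product integral -/
theorem Dom.eq_prod {s b : ℝ} {Θ W : ℝ → E N → ℝ} (h : Dom s b Θ W) {r t : ℝ} (hsr : s ≤ r)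
    (hrb : r ≤ b) (hrt : r ≤ t) (x : E N) :
    ∫ q in s..r, ∫ z, hk (t - q) (x - z) * W q z =
      ∫ p, hk (t - p.1) (x - p.2) * W p.1 p.2 ∂(mu N s r) := by
  rw [intervalIntegral.integral_of_le hsr, integral_Ioc_eq_integral_Ioo,
    integral_prod _ (h.int hrb hrt x)]

theorem Dom.intervalIntegrable {s b : ℝ} {Θ W : ℝ → E N → ℝ} (h : Dom s b Θ W) {r t : ℝ}
    (hsr : s ≤ r) (hrb : r ≤ b) (hrt : r ≤ t) (x : E N) :
    IntervalIntegrable (fun q => ∫ z, hk (t - q) (x - z) * W q z) volume s r := by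
  rw [intervalIntegrable_iff_integrableOn_Ioo_of_le hsr]
  exact (h.int hrb hrt x).integral_prod_left

theorem measurable_hk_shift (t : ℝ) (x : E N) :
    Measurable (fun p : ℝ × E N => hk (t - p.1) (x - p.2)) :=
  Pool.Agent.H29.TF.measurable_hk_uncurry.comp
    (by fun_prop : Measurable fun p : ℝ × E N => (t - p.1, x - p.2))

/-- (3) semigroup identity -/
theorem Dom.semi_aux {s b : ℝ} {Θ W : ℝ → E N → ℝ} (h : Dom s b Θ W) {r t : ℝ}
    (hrb : r ≤ b) (hrt : r < t) (x : E N) :
    Integrable (fun q : E N × (ℝ × E N) => hk (t - r) (x - q.1) *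
      (hk (r - q.2.1) (q.1 - q.2.2) * W q.2.1 q.2.2)) (volume.prod (mu N s r)) := by
  have hm : AEStronglyMeasurable (fun q : E N × (ℝ × E N) => hk (t - r) (x - q.1) *
      (hk (r - q.2.1) (q.1 - q.2.2) * W q.2.1 q.2.2)) (volume.prod (mu N s r)) := by
    have h1 : Measurable (fun q : E N × (ℝ × E N) => hk (t - r) (x - q.1) *
      (hk (r - q.2.1) (q.1 - q.2.2) * (if s < q.2.1 then W q.2.1 q.2.2 else 0))) := by
      refine Measurable.mul ?_ (Measurable.mul ?_ ?_)
      · exact (Pool.Agent.H29.TF.continuous_hk (t - r)).measurable.comp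
          (by fun_prop : Measurable fun q : E N × (ℝ × E N) => x - q.1)
      · exact Pool.Agent.H29.TF.measurable_hk_uncurry.comp
          (by fun_prop : Measurable fun q : E N × (ℝ × E N) => (r - q.2.1, q.1 - q.2.2))
      · exact h.meas.comp (by fun_prop : Measurable fun q : E N × (ℝ × E N) => q.2)
    refine h1.aestronglyMeasurable.congr ?_
    have h2 : ∀ᵐ q : E N × (ℝ × E N) ∂(volume.prod (mu N s r)), s < q.2.1 ∧ q.2.1 < r :=
      Measure.quasiMeasurePreserving_snd.ae (ae_mu (N := N) s r)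
    filter_upwards [h2] with q hq
    rw [if_pos hq.1]
  rw [integrable_prod_iff' hm]
  constructor
  · filter_upwards [ae_mu (N := N) s r] with p hp
    have h1 := (integrable_hk_hk (N := N) (a := t - r) (b := r - p.1) (by linarith)
      (by linarith [hp.2]) x p.2).mul_const (W p.1 p.2)
    refine h1.congr (Filter.Eventually.of_forall fun z => ?_)
    simp only
    ring
  · have h3 : Integrable (fun p : ℝ × E N => ‖hk (t - p.1) (x - p.2) * W p.1 p.2‖) (mu N s r) :=
      (h.int hrb hrt.le x).norm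
    refine h3.congr ?_
    filter_upwards [ae_mu (N := N) s r] with p hp
    rw [norm_mul, Real.norm_of_nonneg (hk_nonneg (by linarith [hp.2]) _)]
    have e : ∀ z : E N, ‖hk (t - r) (x - z) * (hk (r - p.1) (z - p.2) * W p.1 p.2)‖ =
        hk (t - r) (x - z) * hk (r - p.1) (z - p.2) * ‖W p.1 p.2‖ := by
      intro z
      rw [norm_mul, norm_mul, Real.norm_of_nonneg (hk_nonneg (by linarith) _),
        Real.norm_of_nonneg (hk_nonneg (by linarith [hp.2]) _)]
      ring
    simp_rw [e]
    rw [integral_mul_const, semigroup_hk (by linarith) (by linarith [hp.2])]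
    congr 2
    ring

theorem Dom.semi {s b : ℝ} {Θ W : ℝ → E N → ℝ} (h : Dom s b Θ W) {r t : ℝ} (hsr : s ≤ r)
    (hrb : r ≤ b) (hrt : r < t) (x : E N) :
    Integrable (fun z => hk (t - r) (x - z) * ∫ q in s..r, ∫ w, hk (r - q) (z - w) * W q w) ∧
    ∫ z, hk (t - r) (x - z) * (∫ q in s..r, ∫ w, hk (r - q) (z - w) * W q w) =
      ∫ q in s..r, ∫ w, hk (t - q) (x - w) * W q w := by
  have hF := h.semi_aux hrb hrt x
  have e1 : ∀ z : E N, hk (t - r) (x - z) * (∫ q in s..r, ∫ w, hk (r - q) (z - w) * W q w) =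
      ∫ p, hk (t - r) (x - z) * (hk (r - p.1) (z - p.2) * W p.1 p.2) ∂(mu N s r) := by
    intro z
    rw [h.eq_prod hsr hrb le_rfl z, integral_const_mul]
  constructor
  · refine hF.integral_prod_left.congr (Filter.Eventually.of_forall fun z => ?_)
    exact (e1 z).symm
  · simp_rw [e1]
    rw [integral_integral_swap hF, h.eq_prod hsr hrb hrt.le x]
    apply integral_congr_ae
    filter_upwards [ae_mu (N := N) s r] with p hp
    have e : ∀ z : E N, hk (t - r) (x - z) * (hk (r - p.1) (z - p.2) * W p.1 p.2) =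
        hk (t - r) (x - z) * hk (r - p.1) (z - p.2) * W p.1 p.2 := fun z => by ring
    simp_rw [e]
    rw [integral_mul_const, semigroup_hk (by linarith) (by linarith [hp.2])]
    congr 2
    ring

/-- the integrals `∫_s^t = ∫_s^r + ∫_r^t` -/
theorem Dom.split {s b : ℝ} {Θ W : ℝ → E N → ℝ} (h : Dom s b Θ W) {r t : ℝ} (hsr : s ≤ r)
    (hrt : r ≤ t) (htb : t ≤ b) (x : E N) :
    ∫ q in s..t, ∫ w, hk (t - q) (x - w) * W q w =
      (∫ q in s..r, ∫ w, hk (t - q) (x - w) * W q w) +
        ∫ q in r..t, ∫ w, hk (t - q) (x - w) * W q w := by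
  have h1 := h.intervalIntegrable (hsr.trans hrt) htb le_rfl x
  rw [intervalIntegral.integral_add_adjacent_intervals]
  · exact h1.mono_set (by rw [uIcc_of_le hsr, uIcc_of_le (hsr.trans hrt)]; exact Icc_subset_Icc_right hrt)
  · exact h1.mono_set (by rw [uIcc_of_le hrt, uIcc_of_le (hsr.trans hrt)]; exact Icc_subset_Icc_left hsr)

/-- triangle Fubini in time -/
theorem tri {s t : ℝ} (hst : s ≤ t) {B φ : ℝ → ℝ} (hB : IntervalIntegrable B volume s t)
    (hφ : Continuous φ) :
    ∫ r in s..t, φ r * ∫ q in s..r, B q = ∫ q in s..t, B q * ∫ r in q..t, φ r := by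
  have hB' : IntegrableOn B (Ioc s t) := by
    rwa [intervalIntegrable_iff_integrableOn_Ioc_of_le hst] at hB
  have hφ' : IntegrableOn φ (Ioc s t) :=
    (hφ.integrableOn_Icc).mono_set Ioc_subset_Icc_self
  have hint : Integrable (fun p : ℝ × ℝ => φ p.1 * B p.2)
      ((volume.restrict (Ioc s t)).prod (volume.restrict (Ioc s t))) := hφ'.mul_prod hB'
  have hint2 : Integrable (fun p : ℝ × ℝ => if p.2 ≤ p.1 then φ p.1 * B p.2 else 0)
      ((volume.restrict (Ioc s t)).prod (volume.restrict (Ioc s t))) := by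
    have := hint.indicator (measurableSet_le measurable_snd measurable_fst :
      MeasurableSet {p : ℝ × ℝ | p.2 ≤ p.1})
    refine this.congr (Filter.Eventually.of_forall fun p => ?_)
    simp only [indicator, mem_ofPred_eq]
  have e1 : ∫ r in s..t, φ r * ∫ q in s..r, B q =
      ∫ r in Ioc s t, ∫ q in Ioc s t, if q ≤ r then φ r * B q else 0 := by
    rw [intervalIntegral.integral_of_le hst]
    apply setIntegral_congr_fun measurableSet_Ioc
    intro r hr
    simp only
    rw [intervalIntegral.integral_of_le hr.1.le, ← integral_const_mul]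
    have : ∀ q, (if q ≤ r then φ r * B q else 0) = (Iic r).indicator (fun q => φ r * B q) q := by
      intro q; simp only [indicator, mem_Iic]
    simp_rw [this]
    rw [setIntegral_indicator measurableSet_Iic]
    congr 2
    ext q
    simp only [mem_inter_iff, mem_Ioc, mem_Iic]
    constructor
    · rintro ⟨h1, h2⟩; exact ⟨⟨h1, h2.trans hr.2⟩, h2⟩
    · rintro ⟨⟨h1, _⟩, h2⟩; exact ⟨h1, h2⟩
  have e2 : ∫ q in s..t, B q * ∫ r in q..t, φ r =
      ∫ q in Ioc s t, ∫ r in Ioc s t, if q ≤ r then φ r * B q else 0 := by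
    rw [intervalIntegral.integral_of_le hst]
    apply setIntegral_congr_fun measurableSet_Ioc
    intro q hq
    simp only
    rw [intervalIntegral.integral_of_le hq.2, mul_comm, ← integral_mul_const]
    have : ∀ r, (if q ≤ r then φ r * B q else 0) = (Ici q).indicator (fun r => φ r * B q) r := by
      intro r; simp only [indicator, mem_Ici]
    simp_rw [this]
    rw [setIntegral_indicator measurableSet_Ici]
    rw [← integral_Icc_eq_integral_Ioc]
    congr 2
    ext r
    simp only [mem_inter_iff, mem_Ioc, mem_Ici, mem_Icc]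
    constructor
    · rintro ⟨h1, h2⟩; exact ⟨⟨hq.1.trans_le h1, h2⟩, h1⟩
    · rintro ⟨⟨_, h1⟩, h2⟩; exact ⟨h2, h1⟩
  rw [e1, e2]
  exact integral_integral_swap hint2

end Pool.Agent.H41.RF.KGR
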