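import Pool.Agent.H41.RF.Duh

/-!
# rf_modules KBD: lower and upper bounds of the kernel
-/

open MeasureTheory Set Filter Topology Metric
open Pool.Agent.H29.TF (hk P hk_pos hk_nonneg integrable_hk_sub integral_hk_sub semigroup_hk)
open Pool.Agent.H91.RD Pool.Agent.H91.RF

namespace Pool.Agent.H41.RF.KGR

variable {N : ℕ}

theorem abs_gk_le (h1 : T_KE1) {K : ℝ} {V : ℝ → E N → ℝ} (hV : Pt K V) {s t : ℝ} (hst : s < t)
    (x y : E N) : |gk V t x s y| ≤ Real.exp (K * (t - s)) * hk (t - s) (x - y) := by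
  obtain ⟨_, hb, hs, _⟩ := h1 N K V hV
  have e : HasSum (fun n : ℕ => (K * (t - s)) ^ n / (n.factorial : ℝ) * hk (t - s) (x - y))
      (Real.exp (K * (t - s)) * hk (t - s) (x - y)) := by
    rw [Real.exp_eq_exp_ℝ]
    exact (NormedSpace.expSeries_div_hasSum_exp (K * (t - s))).mul_right _
  have := tsum_of_norm_bounded (f := fun n => gkn V n t x s y) e fun n => hb n s t hst x y
  exact this

theorem meas_gk (h1 : T_KE1) {K : ℝ} {V : ℝ → E N → ℝ} (hV : Pt K V) (s : ℝ) (y : E N) :
    Measurable (fun p : ℝ × E N => if s < p.1 then gk V p.1 p.2 s y else 0) := by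
  obtain ⟨_, _, _, hm⟩ := h1 N K V hV
  exact (hm s).comp (by fun_prop : Measurable fun p : ℝ × E N => (p, y))

theorem meas_mul {s : ℝ} {F W : ℝ → E N → ℝ} (hF : Measurable (fun p : ℝ × E N => F p.1 p.2))
    (hW : Measurable (fun p : ℝ × E N => if s < p.1 then W p.1 p.2 else 0)) :
    Measurable (fun p : ℝ × E N => if s < p.1 then F p.1 p.2 * W p.1 p.2 else 0) := by
  have h := hF.mul hW
  have e : (fun p : ℝ × E N => if s < p.1 then F p.1 p.2 * W p.1 p.2 else 0) =
      ((fun p : ℝ × E N => F p.1 p.2) * fun p : ℝ × E N => if s < p.1 then W p.1 p.2 else 0) := by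
    funext p
    simp only [Pi.mul_apply]
    split_ifs
    · rfl
    · rw [mul_zero]
  rw [e]
  exact h

theorem exp_le {K s r b : ℝ} (hK : 0 ≤ K) (hrb : r < b) :
    Real.exp (K * (r - s)) ≤ Real.exp (K * (b - s)) :=
  Real.exp_le_exp.2 (mul_le_mul_of_nonneg_left (by linarith) hK)

/-- the kernel is dominated -/
theorem dom_gk (h1 : T_KE1) {K : ℝ} {V : ℝ → E N → ℝ} (hV : Pt K V) (s b : ℝ) (y : E N) :
    Dom s b (fun (t : ℝ) (x : E N) => Real.exp (K * (b - s)) * hk (t - s) (x - y))
      (fun t x => gk V t x s y) where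
  rep := rep_hk s _ y (Real.exp_pos _).le
  meas := meas_gk h1 hV s y
  le r hr hrb x := by
    refine (abs_gk_le h1 hV hr x y).trans ?_
    exact mul_le_mul_of_nonneg_right (exp_le hV.K0.le hrb) (hk_nonneg (by linarith) _)

/-- bounded multiples of dominated functions are dominated -/
theorem Dom.mul {s b C : ℝ} {Θ W F : ℝ → E N → ℝ} (h : Dom s b Θ W) (hC : 0 ≤ C)
    (hF : Measurable (fun p : ℝ × E N => F p.1 p.2)) (hFb : ∀ t x, |F t x| ≤ C) :
    Dom s b (fun t x => C * Θ t x) (fun t x => F t x * W t x) where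
  rep :=
    { nn := fun t ht x => mul_nonneg hC (h.rep.nn t ht x)
      int := fun r t h1 h2 x => by
        refine ((h.rep.int r t h1 h2 x).const_mul C).congr
          (Filter.Eventually.of_forall fun z => ?_)
        simp only; ring
      rep := fun r t h1 h2 x => by
        rw [← h.rep.rep r t h1 h2 x, ← integral_const_mul]
        congr 1; ext z; ring }
  meas := meas_mul hF h.meas
  le r hr hrb x := by
    rw [abs_mul]
    exact mul_le_mul (hFb r x) (h.le r hr hrb x) (abs_nonneg _) hC

theorem Dom.add {s b : ℝ} {Θ Θ' W W' : ℝ → E N → ℝ} (h : Dom s b Θ W) (h' : Dom s b Θ' W') :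
    Dom s b (fun t x => Θ t x + Θ' t x) (fun t x => W t x + W' t x) where
  rep :=
    { nn := fun t ht x => add_nonneg (h.rep.nn t ht x) (h'.rep.nn t ht x)
      int := fun r t h1 h2 x => by
        refine ((h.rep.int r t h1 h2 x).add (h'.rep.int r t h1 h2 x)).congr
          (Filter.Eventually.of_forall fun z => ?_)
        simp only [Pi.add_apply]; ring
      rep := fun r t h1 h2 x => by
        rw [← h.rep.rep r t h1 h2 x, ← h'.rep.rep r t h1 h2 x,
          ← integral_add (h.rep.int r t h1 h2 x) (h'.rep.int r t h1 h2 x)]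
        congr 1; ext z; ring }
  meas := by
    have e : (fun p : ℝ × E N => if s < p.1 then W p.1 p.2 + W' p.1 p.2 else 0) =
      ((fun p : ℝ × E N => if s < p.1 then W p.1 p.2 else 0) +
        fun p : ℝ × E N => if s < p.1 then W' p.1 p.2 else 0) := by
      funext p
      simp only [Pi.add_apply]
      split_ifs
      · rfl
      · rw [add_zero]
    rw [e]; exact h.meas.add h'.meas
  le r hr hrb x := (abs_add_le _ _).trans (add_le_add (h.le r hr hrb x) (h'.le r hr hrb x))

/-- the Duhamel operator is linear and monotone on dominated functions -/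
theorem Dom.duh_add {s b : ℝ} {Θ Θ' W W' : ℝ → E N → ℝ} (h : Dom s b Θ W) (h' : Dom s b Θ' W')
    {t : ℝ} (hst : s ≤ t) (htb : t ≤ b) (x : E N) :
    ∫ q in s..t, ∫ z, hk (t - q) (x - z) * (W q z + W' q z) =
      (∫ q in s..t, ∫ z, hk (t - q) (x - z) * W q z) +
        ∫ q in s..t, ∫ z, hk (t - q) (x - z) * W' q z := by
  rw [(h.add h').eq_prod hst htb le_rfl x, h.eq_prod hst htb le_rfl x,
    h'.eq_prod hst htb le_rfl x, ← integral_add (h.int htb le_rfl x) (h'.int htb le_rfl x)]
  congr 1; ext p; ring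

theorem Dom.smul {s b : ℝ} {Θ W : ℝ → E N → ℝ} (h : Dom s b Θ W) (c : ℝ) :
    Dom s b (fun t x => |c| * Θ t x) (fun t x => c * W t x) :=
  h.mul (abs_nonneg c) (F := fun _ _ => c) (by fun_prop) (fun _ _ => le_rfl)

theorem Dom.abs {s b : ℝ} {Θ W : ℝ → E N → ℝ} (h : Dom s b Θ W) :
    Dom s b Θ (fun t x => |W t x|) where
  rep := h.rep
  meas := by
    have h1 : Measurable (fun p : ℝ × E N => |if s < p.1 then W p.1 p.2 else 0|) :=
      continuous_abs.measurable.comp h.meas
    have e : (fun p : ℝ × E N => if s < p.1 then |W p.1 p.2| else 0) =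
        fun p : ℝ × E N => |if s < p.1 then W p.1 p.2 else 0| := by
      funext p
      split_ifs
      · rfl
      · rw [abs_zero]
    rw [e]; exact h1
  le r hr hrb x := by rw [abs_abs]; exact h.le r hr hrb x

theorem Dom.neg {s b : ℝ} {Θ W : ℝ → E N → ℝ} (h : Dom s b Θ W) :
    Dom s b Θ (fun t x => -W t x) where
  rep := h.rep
  meas := by
    have e : (fun p : ℝ × E N => if s < p.1 then -W p.1 p.2 else 0) =
        fun p : ℝ × E N => -(if s < p.1 then W p.1 p.2 else 0) := by
      funext p
      split_ifs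
      · rfl
      · rw [neg_zero]
    rw [e]; exact h.meas.neg
  le r hr hrb x := by rw [abs_neg]; exact h.le r hr hrb x

theorem Dom.sub {s b : ℝ} {Θ Θ' W W' : ℝ → E N → ℝ} (h : Dom s b Θ W) (h' : Dom s b Θ' W') :
    Dom s b (fun t x => Θ t x + Θ' t x) (fun t x => W t x - W' t x) := by
  have := h.add h'.neg
  simp only [← sub_eq_add_neg] at this
  exact this

theorem Dom.duh_sub {s b : ℝ} {Θ Θ' W W' : ℝ → E N → ℝ} (h : Dom s b Θ W) (h' : Dom s b Θ' W')
    {t : ℝ} (hst : s ≤ t) (htb : t ≤ b) (x : E N) :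
    ∫ q in s..t, ∫ z, hk (t - q) (x - z) * (W q z - W' q z) =
      (∫ q in s..t, ∫ z, hk (t - q) (x - z) * W q z) -
        ∫ q in s..t, ∫ z, hk (t - q) (x - z) * W' q z := by
  rw [(h.sub h').eq_prod hst htb le_rfl x, h.eq_prod hst htb le_rfl x,
    h'.eq_prod hst htb le_rfl x, ← integral_sub (h.int htb le_rfl x) (h'.int htb le_rfl x)]
  congr 1; ext p; ring

theorem Dom.duh_abs_le {s b c : ℝ} {Θ Θ' W W' : ℝ → E N → ℝ} (h : Dom s b Θ W)
    (h' : Dom s b Θ' W') {t : ℝ} (hst : s ≤ t) (htb : t ≤ b)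
    (hle : ∀ q, s < q → q < t → ∀ z, |W q z| ≤ c * |W' q z|) (x : E N) :
    |∫ q in s..t, ∫ z, hk (t - q) (x - z) * W q z| ≤
      c * ∫ q in s..t, ∫ z, hk (t - q) (x - z) * |W' q z| := by
  rw [h.eq_prod hst htb le_rfl x, h'.abs.eq_prod hst htb le_rfl x, ← integral_const_mul,
    ← Real.norm_eq_abs]
  apply norm_integral_le_of_norm_le ((h'.abs.int htb le_rfl x).const_mul c)
  filter_upwards [ae_mu (N := N) s t] with p hp
  rw [norm_mul, Real.norm_of_nonneg (hk_nonneg (by linarith [hp.2]) _)]
  have := mul_le_mul_of_nonneg_left (hle p.1 hp.1 hp.2 p.2)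
    (hk_nonneg (V := E N) (by linarith [hp.2] : (0:ℝ) ≤ t - p.1) (x - p.2))
  rw [Real.norm_eq_abs]
  linarith [this]

/-- the exponential of time as a bounded factor -/
theorem Dom.mulTime {s b C : ℝ} {Θ W : ℝ → E N → ℝ} (h : Dom s b Θ W) (hC : 0 ≤ C) {φ : ℝ → ℝ}
    (hφ : Measurable φ) (hb : ∀ r, s < r → r < b → |φ r| ≤ C) :
    Dom s b (fun t x => C * Θ t x) (fun t x => φ t * W t x) where
  rep :=
    { nn := fun t ht x => mul_nonneg hC (h.rep.nn t ht x)
      int := fun r t h1 h2 x => by
        refine ((h.rep.int r t h1 h2 x).const_mul C).congr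
          (Filter.Eventually.of_forall fun z => ?_)
        simp only; ring
      rep := fun r t h1 h2 x => by
        rw [← h.rep.rep r t h1 h2 x, ← integral_const_mul]
        congr 1; ext z; ring }
  meas := meas_mul (F := fun t _ => φ t) (by fun_prop) h.meas
  le r hr hrb x := by
    rw [abs_mul]
    exact mul_le_mul (hb r hr hrb) (h.le r hr hrb x) (abs_nonneg _) hC

theorem integral_exp_lin {K s q t : ℝ} :
    ∫ r in q..t, K * Real.exp (K * (r - s)) = Real.exp (K * (t - s)) - Real.exp (K * (q - s)) := by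
  have h : ∀ r ∈ uIcc q t, HasDerivAt (fun r => Real.exp (K * (r - s)))
      (K * Real.exp (K * (r - s))) r := by
    intro r _
    have h1 : HasDerivAt (fun r : ℝ => K * (r - s)) K r := by
      simpa using ((hasDerivAt_id' r).sub_const s).const_mul K
    have := h1.exp
    convert this using 1
    ring
  exact intervalIntegral.integral_eq_sub_of_hasDerivAt h
    (Continuous.intervalIntegrable (by fun_prop) _ _)

/-- Duhamel's formula in the frame multiplied by `exp(K(t-s))` -/
theorem shift (h1 : T_KE1) (h2 : T_KE2) {K : ℝ} {V : ℝ → E N → ℝ} (hV : Pt K V) {s t : ℝ}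
    (hst : s < t) (x y : E N) :
    Real.exp (K * (t - s)) * gk V t x s y = hk (t - s) (x - y) +
      ∫ r in s..t, ∫ z, hk (t - r) (x - z) *
        ((V r z + K) * (Real.exp (K * (r - s)) * gk V r z s y)) := by
  have hg := dom_gk h1 hV s t y
  have hW := hg.mul hV.K0.le hV.meas hV.bdd
  set B : ℝ → ℝ := fun q => ∫ w, hk (t - q) (x - w) * (V q w * gk V q w s y) with hB
  have hBi : IntervalIntegrable B volume s t := hW.intervalIntegrable hst.le le_rfl le_rfl x
  have hA : ∀ r, s < r → r < t → ∫ z, hk (t - r) (x - z) * gk V r z s y =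
      hk (t - s) (x - y) + ∫ q in s..r, B q := by
    intro r hr hrt
    have e : ∀ z : E N, hk (t - r) (x - z) * gk V r z s y =
        hk (t - r) (x - z) * hk (r - s) (z - y) +
          hk (t - r) (x - z) * ∫ q in s..r, ∫ w, hk (r - q) (z - w) * (V q w * gk V q w s y) := by
      intro z
      rw [← mul_add, ← h2 N K V hV s r hr z y]
    obtain ⟨i2, e2⟩ := hW.semi hr.le hrt.le hrt x
    simp_rw [e]
    rw [integral_add (integrable_hk_hk (by linarith) (by linarith) x y) i2, e2,
      semigroup_hk (by linarith) (by linarith)]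
    congr 2
    ring
  have hin : ∀ r ∈ Ioo s t, ∫ z, hk (t - r) (x - z) *
        ((V r z + K) * (Real.exp (K * (r - s)) * gk V r z s y)) =
      Real.exp (K * (r - s)) * B r + K * Real.exp (K * (r - s)) *
        (hk (t - s) (x - y) + ∫ q in s..r, B q) := by
    intro r hr
    rw [← hA r hr.1 hr.2, hB, ← integral_const_mul, ← integral_const_mul, ← integral_add
      ((hW.int_slice hr.1 hr.2 hr.2 x).const_mul _) ((hg.int_slice hr.1 hr.2 hr.2 x).const_mul _)]
    congr 1; ext z; ring
  have hint : ∫ r in s..t, ∫ z, hk (t - r) (x - z) *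
        ((V r z + K) * (Real.exp (K * (r - s)) * gk V r z s y)) =
      ∫ r in s..t, (Real.exp (K * (r - s)) * B r + K * Real.exp (K * (r - s)) *
        (hk (t - s) (x - y) + ∫ q in s..r, B q)) := by
    rw [intervalIntegral.integral_of_le hst.le, intervalIntegral.integral_of_le hst.le,
      integral_Ioc_eq_integral_Ioo, integral_Ioc_eq_integral_Ioo]
    exact setIntegral_congr_fun measurableSet_Ioo hin
  have hE : Continuous fun r : ℝ => Real.exp (K * (r - s)) := by fun_prop
  have hKE : Continuous fun r : ℝ => K * Real.exp (K * (r - s)) := by fun_prop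
  have hprim : ContinuousOn (fun r => ∫ q in s..r, B q) (uIcc s t) := by
    have := intervalIntegral.continuousOn_primitive_interval (f := B) (μ := volume)
      (a := s) (b := t) (by
        have := hBi.def'
        rw [uIcc_of_le hst.le]
        rwa [integrableOn_Icc_iff_integrableOn_Ioc, ← uIoc_of_le hst.le])
    exact this
  have i1 : IntervalIntegrable (fun r => Real.exp (K * (r - s)) * B r) volume s t :=
    hBi.continuousOn_mul hE.continuousOn
  have i2 : IntervalIntegrable (fun r => K * Real.exp (K * (r - s)) * hk (t - s) (x - y))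
      volume s t := Continuous.intervalIntegrable (by fun_prop) _ _
  have i3 : IntervalIntegrable (fun r => K * Real.exp (K * (r - s)) * ∫ q in s..r, B q)
      volume s t := (hKE.continuousOn.mul hprim).intervalIntegrable
  have e3 : ∀ r, Real.exp (K * (r - s)) * B r + K * Real.exp (K * (r - s)) *
        (hk (t - s) (x - y) + ∫ q in s..r, B q) =
      Real.exp (K * (r - s)) * B r + (K * Real.exp (K * (r - s)) * hk (t - s) (x - y) +
        K * Real.exp (K * (r - s)) * ∫ q in s..r, B q) := fun r => by ring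
  rw [hint]
  simp_rw [e3]
  rw [intervalIntegral.integral_add i1 (i2.add i3), intervalIntegral.integral_add i2 i3,
    intervalIntegral.integral_mul_const, integral_exp_lin, tri hst.le hBi hKE]
  simp_rw [integral_exp_lin (K := K) (s := s)]
  have e4 : ∫ q in s..t, B q * (Real.exp (K * (t - s)) - Real.exp (K * (q - s))) =
      Real.exp (K * (t - s)) * (∫ q in s..t, B q) - ∫ q in s..t, Real.exp (K * (q - s)) * B q := by
    rw [← intervalIntegral.integral_const_mul, ← intervalIntegral.integral_sub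
      (hBi.const_mul _) i1]
    congr 1; ext q; ring
  rw [e4, h2 N K V hV s t hst x y, sub_self, mul_zero, Real.exp_zero]
  ring

theorem gkn_nonneg {V : ℝ → E N → ℝ} (hV : ∀ t x, 0 ≤ V t x) (n : ℕ) :
    ∀ s t, s < t → ∀ x y, 0 ≤ gkn V n t x s y := by
  induction n with
  | zero => intro s t hst x y; exact hk_nonneg (by linarith) _
  | succ n ih =>
    intro s t hst x y
    show 0 ≤ ∫ r in s..t, ∫ z, hk (t - r) (x - z) * (V r z * gkn V n r z s y)
    rw [intervalIntegral.integral_of_le hst.le, integral_Ioc_eq_integral_Ioo]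
    refine setIntegral_nonneg measurableSet_Ioo fun r hr => integral_nonneg fun z => ?_
    exact mul_nonneg (hk_nonneg (by linarith [hr.2]) _) (mul_nonneg (hV r z) (ih s r hr.1 z y))

theorem pt_shift {K : ℝ} {V : ℝ → E N → ℝ} (hV : Pt K V) : Pt (2 * K) (fun t x => V t x + K) where
  K0 := by have := hV.K0; linarith
  bdd t x := by
    have h1 := abs_le.1 (hV.bdd t x)
    have h2 := hV.K0
    rw [abs_le]; constructor <;> linarith
  meas := hV.meas.add_const K

theorem eq_shift (h1 : T_KE1) (h2 : T_KE2) {K : ℝ} {V : ℝ → E N → ℝ} (hV : Pt K V) {s t : ℝ}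
    (hst : s < t) (x y : E N) :
    Real.exp (K * (t - s)) * gk V t x s y = gk (fun t x => V t x + K) t x s y := by
  have hV' := pt_shift hV
  have hK := hV.K0
  have hd1 := dom_gk h1 hV s (t + 1) y
  have hd1' : Dom s (t + 1) _ (fun r z => Real.exp (K * (r - s)) * gk V r z s y) :=
    hd1.mulTime (C := Real.exp (K * (t + 1 - s))) (Real.exp_pos _).le (by fun_prop)
      (fun r _ hr => by rw [abs_of_pos (Real.exp_pos _)]; exact exp_le hK.le hr)
  have hd2 := dom_gk h1 hV' s (t + 1) y
  have hd3 := hd1'.sub hd2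
  have hd4 := hd1'.mul (C := 2 * K) (by linarith) hV'.meas hV'.bdd
  have hd5 := hd2.mul (C := 2 * K) (by linarith) hV'.meas hV'.bdd
  have key := pf_KGR N (2 * K) s t
    (fun r z => Real.exp (K * (r - s)) * gk V r z s y - gk (fun t x => V t x + K) r z s y)
    (by linarith) hd3.meas ?_ (Or.inr ⟨Real.exp (K * (t + 1 - s)) * Real.exp (K * (t + 1 - s)) +
      Real.exp (2 * K * (t + 1 - s)), y, ?_⟩) t hst le_rfl x
  · linarith [key]
  · intro r hr hrt z
    have e1 := shift h1 h2 hV hr z y
    have e2 := h2 N (2 * K) _ hV' s r hr z y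
    have e3 : Real.exp (K * (r - s)) * gk V r z s y - gk (fun t x => V t x + K) r z s y =
        ∫ q in s..r, ∫ w, hk (r - q) (z - w) * ((V q w + K) *
          (Real.exp (K * (q - s)) * gk V q w s y) -
            (V q w + K) * gk (fun t x => V t x + K) q w s y) := by
      rw [hd4.duh_sub hd5 hr.le (by linarith) z, e1, e2]
      ring
    rw [e3]
    refine (hd4.sub hd5).duh_abs_le hd3 hr.le (by linarith) (fun q hq hqr w => ?_) z
    rw [← mul_sub, abs_mul]
    exact mul_le_mul_of_nonneg_right (hV'.bdd q w) (abs_nonneg _)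
  · intro r hr hrt z
    refine (hd3.le r hr (by linarith) z).trans (le_of_eq ?_)
    ring

theorem pf_KBD (h1 : T_KE1) (h2 : T_KE2) : T_KBD := by
  intro N K V hV s t hst x y
  constructor
  · have hV0 : ∀ t x, 0 ≤ V t x + K := fun t x => by linarith [(abs_le.1 (hV.bdd t x)).1]
    have h3 : hk (t - s) (x - y) ≤ gk (fun t x => V t x + K) t x s y := by
      have h4 := (h1 N (2 * K) _ (pt_shift hV)).2.2.1 s t hst x y
      have h5 := h4.le_tsum 0 (fun n _ => gkn_nonneg hV0 n s t hst x y)
      exact h5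
    rw [← eq_shift h1 h2 hV hst x y] at h3
    rw [Real.exp_neg, inv_mul_le_iff₀ (Real.exp_pos _)]
    exact h3
  · exact (le_abs_self _).trans (abs_gk_le h1 hV hst x y)

end Pool.Agent.H41.RF.KGR
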