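import Pool.Agent.H41.RF.KBD

/-!
# rf_modules KER: bounds and Chapman-Kolmogorov for the kernel
-/

open MeasureTheory Set Filter Topology Metric
open Pool.Agent.H29.TF (hk P hk_pos hk_nonneg integrable_hk_sub integral_hk_sub semigroup_hk)
open Pool.Agent.H91.RD Pool.Agent.H91.RF

namespace Pool.Agent.H41.RF.KGR

variable {N : ℕ}

theorem Rep.mono {s r : ℝ} {Θ : ℝ → E N → ℝ} (h : Rep s Θ) (hr : s ≤ r) : Rep r Θ :=
  ⟨fun t ht x => h.nn t (by linarith) x, fun q t hq ht x => h.int q t (by linarith) ht x,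
    fun q t hq ht x => h.rep q t (by linarith) ht x⟩

/-- Gronwall with a general majorant -/
theorem gron {K s b : ℝ} (hK : 0 ≤ K) {H Θ : ℝ → E N → ℝ} (hΘ : Rep s Θ)
    (hH : ∀ t, s < t → t ≤ b → ∀ x,
      |H t x| ≤ K * ∫ r in s..t, ∫ z, hk (t - r) (x - z) * |H r z|)
    (h0 : ∀ t, s < t → t ≤ b → ∀ x, |H t x| ≤ Θ t x) :
    ∀ t, s < t → t ≤ b → ∀ x, H t x = 0 := by
  intro t ht1 ht2 x
  have h1 : Tendsto (fun n : ℕ => (K * (t - s)) ^ n / (n.factorial : ℝ) * Θ t x) atTop
      (𝓝 (0 * Θ t x)) := (FloorSemiring.tendsto_pow_div_factorial_atTop _).mul_const _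
  rw [zero_mul] at h1
  have h2 : |H t x| ≤ 0 :=
    ge_of_tendsto' h1 fun n => step hK hΘ hH h0 n t ht1 ht2 x
  exact abs_eq_zero.1 (le_antisymm h2 (abs_nonneg _))

theorem meas_gk2 (h1 : T_KE1) {K : ℝ} {V : ℝ → E N → ℝ} (hV : Pt K V) {s t : ℝ} (hst : s < t) :
    Measurable (fun p : E N × E N => gk V t p.1 s p.2) := by
  obtain ⟨_, _, _, hm⟩ := h1 N K V hV
  have h := (hm s).comp (by fun_prop : Measurable fun p : E N × E N => ((t, p.1), p.2))
  have e : ((fun p : (ℝ × E N) × E N => if s < p.1.1 then gk V p.1.1 p.1.2 s p.2 else 0) ∘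
      fun p : E N × E N => ((t, p.1), p.2)) = fun p : E N × E N => gk V t p.1 s p.2 := by
    funext p; simp [hst]
  rwa [e] at h

/-- intermediate times -/
theorem slice_id (h1 : T_KE1) (h2 : T_KE2) {K : ℝ} {V : ℝ → E N → ℝ} (hV : Pt K V) {s r t : ℝ}
    (hr : s < r) (hrt : r < t) (x y : E N) :
    ∫ z, hk (t - r) (x - z) * gk V r z s y = hk (t - s) (x - y) +
      ∫ q in s..r, ∫ w, hk (t - q) (x - w) * (V q w * gk V q w s y) := by
  have hg := dom_gk h1 hV s t y
  have hW := hg.mul hV.K0.le hV.meas hV.bdd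
  have e : ∀ z : E N, hk (t - r) (x - z) * gk V r z s y =
      hk (t - r) (x - z) * hk (r - s) (z - y) +
        hk (t - r) (x - z) * ∫ q in s..r, ∫ w, hk (r - q) (z - w) * (V q w * gk V q w s y) := by
    intro z
    rw [← mul_add, ← h2 N K V hV s r hr z y]
  obtain ⟨i2, e2⟩ := hW.semi hr.le hrt.le hrt x
  simp_rw [e]
  rw [integral_add (integrable_hk_hk (by linarith) (by linarith) x y) i2, e2,
    semigroup_hk (by linarith) (by linarith)]
  congr 2
  ring

theorem gk_pos (h1 : T_KE1) (h2 : T_KE2) {K : ℝ} {V : ℝ → E N → ℝ} (hV : Pt K V) {s t : ℝ}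
    (hst : s < t) (x y : E N) : 0 < gk V t x s y :=
  (mul_pos (Real.exp_pos _) (hk_pos (by linarith) _)).trans_le
    (pf_KBD h1 h2 N K V hV s t hst x y).1

theorem meas_gk_right (h1 : T_KE1) {K : ℝ} {V : ℝ → E N → ℝ} (hV : Pt K V) {s t : ℝ}
    (hst : s < t) (x : E N) : Measurable (fun z => gk V t x s z) :=
  (meas_gk2 h1 hV hst).comp (by fun_prop : Measurable fun z : E N => (x, z))

theorem meas_gk_left (h1 : T_KE1) {K : ℝ} {V : ℝ → E N → ℝ} (hV : Pt K V) {s t : ℝ}
    (hst : s < t) (y : E N) : Measurable (fun z => gk V t z s y) :=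
  (meas_gk2 h1 hV hst).comp (by fun_prop : Measurable fun z : E N => (z, y))

/-- integrability and bound of the composition -/
theorem comp_bound (h1 : T_KE1) (h2 : T_KE2) {K : ℝ} {V : ℝ → E N → ℝ} (hV : Pt K V)
    {s r t : ℝ} (hr : s < r) (hrt : r < t) (x y : E N) :
    Integrable (fun z => gk V t x r z * gk V r z s y) ∧
      0 ≤ ∫ z, gk V t x r z * gk V r z s y ∧
      ∫ z, gk V t x r z * gk V r z s y ≤ Real.exp (K * (t - s)) * hk (t - s) (x - y) := by
  have i0 := (integrable_hk_hk (N := N) (a := t - r) (b := r - s) (by linarith) (by linarith)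
    x y).const_mul (Real.exp (K * (t - s)))
  have hle : ∀ z : E N, gk V t x r z * gk V r z s y ≤
      Real.exp (K * (t - s)) * (hk (t - r) (x - z) * hk (r - s) (z - y)) := by
    intro z
    have a1 := (pf_KBD h1 h2 N K V hV r t hrt x z).2
    have a2 := (pf_KBD h1 h2 N K V hV s r hr z y).2
    have a3 := mul_le_mul a1 a2 (gk_pos h1 h2 hV hr z y).le
      (mul_nonneg (Real.exp_pos _).le (hk_nonneg (by linarith) _))
    refine a3.trans (le_of_eq ?_)
    rw [show K * (t - s) = K * (t - r) + K * (r - s) by ring, Real.exp_add]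
    ring
  have hnn : ∀ z : E N, 0 ≤ gk V t x r z * gk V r z s y := fun z =>
    mul_nonneg (gk_pos h1 h2 hV hrt x z).le (gk_pos h1 h2 hV hr z y).le
  have hi : Integrable (fun z => gk V t x r z * gk V r z s y) := by
    refine i0.mono' ((meas_gk_right h1 hV hrt x).mul
      (meas_gk_left h1 hV hr y)).aestronglyMeasurable
      (Filter.Eventually.of_forall fun z => ?_)
    rw [Real.norm_of_nonneg (hnn z)]
    exact hle z
  refine ⟨hi, integral_nonneg hnn, ?_⟩
  refine (integral_mono hi i0 hle).trans (le_of_eq ?_)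
  rw [integral_const_mul, semigroup_hk (by linarith) (by linarith)]
  congr 2
  ring

theorem dom_comp (h1 : T_KE1) (h2 : T_KE2) {K : ℝ} {V : ℝ → E N → ℝ} (hV : Pt K V)
    {s r : ℝ} (hr : s < r) (b : ℝ) (y : E N) :
    Dom r b (fun (t : ℝ) (x : E N) => Real.exp (K * (b - s)) * hk (t - s) (x - y))
      (fun t x => ∫ z, gk V t x r z * gk V r z s y) where
  rep := (rep_hk s _ y (Real.exp_pos _).le).mono hr.le
  meas := by
    obtain ⟨_, _, _, hm⟩ := h1 N K V hV
    have hm2 : Measurable (fun p : (ℝ × E N) × E N =>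
        (if r < p.1.1 then gk V p.1.1 p.1.2 r p.2 else 0) * gk V r p.2 s y) :=
      (hm r).mul ((meas_gk_left h1 hV hr y).comp
        (by fun_prop : Measurable fun p : (ℝ × E N) × E N => p.2))
    have h3 := (hm2.stronglyMeasurable.integral_prod_right' (ν := (volume : Measure (E N)))).measurable
    have e : (fun p : ℝ × E N => if r < p.1 then ∫ z, gk V p.1 p.2 r z * gk V r z s y else 0) =
        fun p : ℝ × E N => ∫ z, (if r < p.1 then gk V p.1 p.2 r z else 0) * gk V r z s y := by
      funext p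
      split_ifs
      · rfl
      · simp
    rw [e]
    exact h3
  le t ht htb x := by
    obtain ⟨_, hn, hl⟩ := comp_bound h1 h2 hV hr ht x y
    rw [abs_of_nonneg hn]
    refine hl.trans ?_
    exact mul_le_mul_of_nonneg_right (exp_le hV.K0.le htb) (hk_nonneg (by linarith) _)

/-- Duhamel's formula for the composition -/
theorem comp_duh (h1 : T_KE1) (h2 : T_KE2) {K : ℝ} {V : ℝ → E N → ℝ} (hV : Pt K V)
    {s r t : ℝ} (hr : s < r) (hrt : r < t) (x y : E N) :
    ∫ z, gk V t x r z * gk V r z s y = (∫ z, hk (t - r) (x - z) * gk V r z s y) +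
      ∫ q in r..t, ∫ w, hk (t - q) (x - w) * (V q w * ∫ z, gk V q w r z * gk V r z s y) := by
  have hd := dom_comp h1 h2 hV hr t y
  have hVd := hd.mul hV.K0.le hV.meas hV.bdd
  obtain ⟨_, _, _, hm⟩ := h1 N K V hV
  -- the triple integral
  have hmeas : AEStronglyMeasurable (fun q : E N × (ℝ × E N) => hk (t - q.2.1) (x - q.2.2) *
      (V q.2.1 q.2.2 * gk V q.2.1 q.2.2 r q.1) * gk V r q.1 s y) (volume.prod (mu N r t)) := by
    have h3 : Measurable (fun q : E N × (ℝ × E N) => hk (t - q.2.1) (x - q.2.2) *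
        (V q.2.1 q.2.2 * (if r < q.2.1 then gk V q.2.1 q.2.2 r q.1 else 0)) * gk V r q.1 s y) := by
      refine Measurable.mul (Measurable.mul ?_ (Measurable.mul ?_ ?_)) ?_
      · exact (measurable_hk_shift t x).comp
          (by fun_prop : Measurable fun q : E N × (ℝ × E N) => q.2)
      · exact hV.meas.comp (by fun_prop : Measurable fun q : E N × (ℝ × E N) => q.2)
      · exact (hm r).comp (by fun_prop : Measurable fun q : E N × (ℝ × E N) => (q.2, q.1))
      · exact (meas_gk_left h1 hV hr y).comp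
          (by fun_prop : Measurable fun q : E N × (ℝ × E N) => q.1)
    refine h3.aestronglyMeasurable.congr ?_
    have h4 : ∀ᵐ q : E N × (ℝ × E N) ∂(volume.prod (mu N r t)), r < q.2.1 ∧ q.2.1 < t :=
      Measure.quasiMeasurePreserving_snd.ae (ae_mu (N := N) r t)
    filter_upwards [h4] with q hq
    rw [if_pos hq.1]
  have hF : Integrable (fun q : E N × (ℝ × E N) => hk (t - q.2.1) (x - q.2.2) *
      (V q.2.1 q.2.2 * gk V q.2.1 q.2.2 r q.1) * gk V r q.1 s y) (volume.prod (mu N r t)) := by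
    rw [integrable_prod_iff' hmeas]
    constructor
    · filter_upwards [ae_mu (N := N) r t] with p hp
      have h3 := ((comp_bound h1 h2 hV hr hp.1 p.2 y).1).const_mul
        (hk (t - p.1) (x - p.2) * V p.1 p.2)
      refine h3.congr (Filter.Eventually.of_forall fun z => ?_)
      simp only
      ring
    · have h3 := (hVd.int le_rfl le_rfl x).norm
      refine h3.congr ?_
      filter_upwards [ae_mu (N := N) r t] with p hp
      have e : ∀ z : E N, ‖hk (t - p.1) (x - p.2) * (V p.1 p.2 * gk V p.1 p.2 r z) *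
          gk V r z s y‖ = ‖hk (t - p.1) (x - p.2) * V p.1 p.2‖ *
            (gk V p.1 p.2 r z * gk V r z s y) := by
        intro z
        rw [show hk (t - p.1) (x - p.2) * (V p.1 p.2 * gk V p.1 p.2 r z) * gk V r z s y =
          (hk (t - p.1) (x - p.2) * V p.1 p.2) * (gk V p.1 p.2 r z * gk V r z s y) by ring,
          norm_mul, Real.norm_of_nonneg (mul_nonneg (gk_pos h1 h2 hV hp.1 p.2 z).le
            (gk_pos h1 h2 hV hr z y).le)]
      simp_rw [e]
      rw [integral_const_mul, ← mul_assoc, norm_mul, Real.norm_of_nonneg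
        (comp_bound h1 h2 hV hr hp.1 p.2 y).2.1]
  have e1 : ∀ z : E N, gk V t x r z * gk V r z s y = hk (t - r) (x - z) * gk V r z s y +
      ∫ p, hk (t - p.1) (x - p.2) * (V p.1 p.2 * gk V p.1 p.2 r z) * gk V r z s y ∂(mu N r t) := by
    intro z
    have hd2 := (dom_gk h1 hV r t z).mul hV.K0.le hV.meas hV.bdd
    rw [h2 N K V hV r t hrt x z, hd2.eq_prod hrt.le le_rfl le_rfl x, add_mul,
      integral_mul_const]
  have hgi : Integrable (fun z => hk (t - r) (x - z) * gk V r z s y) :=
    (dom_gk h1 hV s t y).int_slice hr hrt hrt x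
  simp_rw [e1]
  rw [integral_add hgi hF.integral_prod_left, integral_integral_swap hF,
    hVd.eq_prod hrt.le le_rfl le_rfl x]
  congr 1
  apply integral_congr_ae
  filter_upwards [ae_mu (N := N) r t] with p hp
  have e : ∀ z : E N, hk (t - p.1) (x - p.2) * (V p.1 p.2 * gk V p.1 p.2 r z) *
      gk V r z s y = (hk (t - p.1) (x - p.2) * V p.1 p.2) *
        (gk V p.1 p.2 r z * gk V r z s y) := fun z => by ring
  simp_rw [e]
  rw [integral_const_mul]
  ring

theorem pf_KER (h1 : T_KE1) (h2 : T_KE2) : T_KER := by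
  intro N K V hV
  refine ⟨fun s t hst => meas_gk2 h1 hV hst, pf_KBD h1 h2 N K V hV, ?_⟩
  intro s r t hr hrt x y
  have hK := hV.K0
  have d1 := dom_comp h1 h2 hV hr (t + 1) y
  have d2 := dom_gk h1 hV s (t + 1) y
  have d2' : Dom r (t + 1) _ (fun t x => gk V t x s y) :=
    ⟨d2.rep.mono hr.le, by
      have e : (fun p : ℝ × E N => if r < p.1 then gk V p.1 p.2 s y else 0) =
          fun p : ℝ × E N => if r < p.1 then (if s < p.1 then gk V p.1 p.2 s y else 0) else 0 := by
        funext p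
        split_ifs with h3 h4
        · rfl
        · exact absurd (hr.trans h3) h4
        · rfl
      rw [e]
      exact Measurable.ite (measurableSet_lt measurable_const measurable_fst) (meas_gk h1 hV s y)
        measurable_const, fun q hq hqb z => d2.le q (hr.trans hq) hqb z⟩
  have d3 := d1.sub d2'
  have d4 := d1.mul hK.le hV.meas hV.bdd
  have d5 := d2'.mul hK.le hV.meas hV.bdd
  have d6 := d2.mul hK.le hV.meas hV.bdd
  have key := gron (N := N) (K := K) (s := r) (b := t) hK.le d3.rep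
    (H := fun t x => (∫ z, gk V t x r z * gk V r z s y) - gk V t x s y) ?_
    (fun q hq hqt z => d3.le q hq (by linarith) z) t hrt le_rfl x
  · linarith [key]
  · intro q hq hqt z
    have e1 := comp_duh h1 h2 hV hr hq z y
    have e2 := h2 N K V hV s q (hr.trans hq) z y
    rw [d6.split hr.le hq.le (by linarith) z, ← add_assoc, ← slice_id h1 h2 hV hr hq z y] at e2
    have e3 : (∫ w, gk V q z r w * gk V r w s y) - gk V q z s y =
        ∫ p in r..q, ∫ w, hk (q - p) (z - w) * (V p w * (∫ z, gk V p w r z * gk V r z s y) -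
          V p w * gk V p w s y) := by
      rw [d4.duh_sub d5 hq.le (by linarith) z, e1, e2]
      ring
    rw [e3]
    refine (d4.sub d5).duh_abs_le d3 hq.le (by linarith) (fun p hp hpq w => ?_) z
    rw [← mul_sub, abs_mul]
    exact mul_le_mul_of_nonneg_right (hV.bdd p w) (abs_nonneg _)

end Pool.Agent.H41.RF.KGR
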