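import Pool.Agent.H91.RF.TargetsF

/-!
# rf_modules KGR: Gronwall's lemma for Duhamel inequalities
-/

open MeasureTheory Set Filter Topology Metric
open Pool.Agent.H29.TF (hk P hk_pos hk_nonneg integrable_hk_sub integral_hk_sub semigroup_hk)
open Pool.Agent.H91.RD Pool.Agent.H91.RF

namespace Pool.Agent.H41.RF.KGR

variable {N : ℕ}

/-- `Θ` is reproduced by the heat semigroup -/
structure Rep (s : ℝ) (Θ : ℝ → E N → ℝ) : Prop where
  nn : ∀ t, s < t → ∀ x, 0 ≤ Θ t x
  int : ∀ r t, s < r → r < t → ∀ x, Integrable (fun z => hk (t - r) (x - z) * Θ r z)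
  rep : ∀ r t, s < r → r < t → ∀ x, ∫ z, hk (t - r) (x - z) * Θ r z = Θ t x

theorem rep_const (s A : ℝ) (hA : 0 ≤ A) : Rep s (fun (_ : ℝ) (_ : E N) => A) where
  nn _ _ _ := hA
  int r t _ h x := (integrable_hk_sub (by linarith) x).mul_const A
  rep r t _ h x := by
    rw [integral_mul_const, integral_hk_sub (by linarith), one_mul]

theorem integrable_hk_hk {a b : ℝ} (ha : 0 < a) (hb : 0 < b) (x y : E N) :
    Integrable (fun z : E N => hk a (x - z) * hk b (z - y)) := by
  refine Pool.Agent.H29.TF.integrable_hk_mul ha (C := hk b (0 : E N))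
    (Continuous.aestronglyMeasurable (by fun_prop)) (fun z => ?_) x
  rw [abs_of_nonneg (hk_nonneg hb.le _)]
  exact Pool.Agent.H29.TF.hk_le hb _

theorem rep_hk (s A : ℝ) (y : E N) (hA : 0 ≤ A) :
    Rep s (fun (t : ℝ) (x : E N) => A * hk (t - s) (x - y)) where
  nn t ht x := mul_nonneg hA (hk_nonneg (by linarith) _)
  int r t h1 h2 x := by
    have := (integrable_hk_hk (N := N) (a := t - r) (b := r - s) (by linarith) (by linarith)
      x y).const_mul A
    refine this.congr (Filter.Eventually.of_forall fun z => ?_)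
    simp only
    ring
  rep r t h1 h2 x := by
    have e : ∀ z : E N, hk (t - r) (x - z) * (A * hk (r - s) (z - y)) =
        A * (hk (t - r) (x - z) * hk (r - s) (z - y)) := fun z => by ring
    simp_rw [e]
    rw [integral_const_mul, semigroup_hk (by linarith) (by linarith)]
    congr 2
    ring

theorem step {K s b : ℝ} (hK : 0 ≤ K) {H Θ : ℝ → E N → ℝ} (hΘ : Rep s Θ)
    (hH : ∀ t, s < t → t ≤ b → ∀ x,
      |H t x| ≤ K * ∫ r in s..t, ∫ z, hk (t - r) (x - z) * |H r z|)
    (h0 : ∀ t, s < t → t ≤ b → ∀ x, |H t x| ≤ Θ t x) (n : ℕ) :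
    ∀ t, s < t → t ≤ b → ∀ x, |H t x| ≤ (K * (t - s)) ^ n / (n.factorial : ℝ) * Θ t x := by
  induction n with
  | zero => intro t h1 h2 x; simpa using h0 t h1 h2 x
  | succ n ih =>
    intro t h1 h2 x
    refine (hH t h1 h2 x).trans ?_
    have hmono : ∫ r in s..t, ∫ z, hk (t - r) (x - z) * |H r z| ≤
        ∫ r in s..t, (K * (r - s)) ^ n / (n.factorial : ℝ) * Θ t x := by
      rw [intervalIntegral.integral_of_le h1.le, intervalIntegral.integral_of_le h1.le,
        integral_Ioc_eq_integral_Ioo, integral_Ioc_eq_integral_Ioo]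
      apply integral_mono_of_nonneg
      · refine (ae_restrict_iff' measurableSet_Ioo).2 (Filter.Eventually.of_forall fun r hr => ?_)
        exact integral_nonneg fun z => mul_nonneg (hk_nonneg (by linarith [hr.2]) _) (abs_nonneg _)
      · apply IntegrableOn.mono_set (t := Icc s t) _ Ioo_subset_Icc_self
        apply ContinuousOn.integrableOn_Icc
        fun_prop
      · refine (ae_restrict_iff' measurableSet_Ioo).2 (Filter.Eventually.of_forall fun r hr => ?_)
        simp only
        rw [← hΘ.rep r t hr.1 hr.2 x, ← integral_const_mul]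
        apply integral_mono_of_nonneg
        · exact Filter.Eventually.of_forall fun z =>
            mul_nonneg (hk_nonneg (by linarith [hr.2]) _) (abs_nonneg _)
        · exact (hΘ.int r t hr.1 hr.2 x).const_mul _
        · refine Filter.Eventually.of_forall fun z => ?_
          simp only
          have h3 := ih r hr.1 (by linarith [hr.2]) z
          have h4 := mul_le_mul_of_nonneg_left h3 (hk_nonneg (V := E N)
            (by linarith [hr.2] : (0:ℝ) ≤ t - r) (x - z))
          linarith [h4]
    refine (mul_le_mul_of_nonneg_left hmono hK).trans (le_of_eq ?_)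
    rw [intervalIntegral.integral_mul_const]
    have e : ∀ r : ℝ, (K * (r - s)) ^ n / (n.factorial : ℝ) =
        K ^ n / (n.factorial : ℝ) * (r - s) ^ n := fun r => by rw [mul_pow]; ring
    simp_rw [e]
    rw [intervalIntegral.integral_const_mul,
      intervalIntegral.integral_comp_sub_right (fun r => r ^ n) s, integral_pow, sub_self]
    rw [Nat.factorial_succ, mul_pow K (t - s) (n + 1), zero_pow (Nat.succ_ne_zero n), sub_zero]
    push_cast
    have h5 : (n.factorial : ℝ) ≠ 0 := by positivity
    have h6 : (n : ℝ) + 1 ≠ 0 := by positivity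
    field_simp
    ring

theorem pf_KGR : T_KGR := by
  intro N K s b H hK _ hH hb t ht1 ht2 x
  have main : ∀ Θ : ℝ → E N → ℝ, Rep s Θ → (∀ t, s < t → t ≤ b → ∀ x, |H t x| ≤ Θ t x) →
      H t x = 0 := by
    intro Θ hΘ h0
    have h1 : Tendsto (fun n : ℕ => (K * (t - s)) ^ n / (n.factorial : ℝ) * Θ t x) atTop
        (𝓝 (0 * Θ t x)) := (FloorSemiring.tendsto_pow_div_factorial_atTop _).mul_const _
    rw [zero_mul] at h1
    have h2 : |H t x| ≤ 0 :=
      ge_of_tendsto' h1 fun n => step hK hΘ hH h0 n t ht1 ht2 x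
    exact abs_eq_zero.1 (le_antisymm h2 (abs_nonneg _))
  rcases hb with ⟨A, hA⟩ | ⟨A, y, hA⟩
  · exact main _ (rep_const s A ((abs_nonneg _).trans (hA t ht1 ht2 x))) hA
  · have hA0 : 0 ≤ A := by
      have h1 := (abs_nonneg _).trans (hA t ht1 ht2 x)
      exact nonneg_of_mul_nonneg_left h1 (hk_pos (by linarith) _)
    exact main _ (rep_hk s A y hA0) hA

end Pool.Agent.H41.RF.KGR
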