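import Pool.Agent.H91.RF.TargetsA

/-!
# rf_modules TER: existence of the terrace
-/

open MeasureTheory Set Filter Topology Metric
open Pool.Agent.H91.RD Pool.Agent.H91.RF

namespace Pool.Agent.H41.RF.TER

/-- a chain of components from `0` up to `b`, with top speed `c` -/
structure Chain (f : ℝ → ℝ) (b c : ℝ) (J : ℕ) (β s : ℕ → ℝ) (y : ℕ → ℝ → ℝ) : Prop where
  J0 : 0 < J
  b0 : β 0 = 0
  bJ : β J = b
  lt : ∀ j < J, β j < β (j + 1)
  zer : ∀ j ≤ J, f (β j) = 0
  ext : ∀ j < J, Extr f (β (j + 1)) (s j) (y j)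
  pos : ∀ j < J, ∀ τ ∈ Ioo 0 (β (j + 1) - β j), 0 < y j τ
  hit : ∀ j < J, y j (β (j + 1) - β j) = 0
  mono : ∀ j, j + 1 < J → s (j + 1) ≤ s j
  near : ∀ j < J, ∃ δ > 0, β j ≤ β (j + 1) - δ ∧
    ∀ t ∈ Ioo (β (j + 1) - δ) (β (j + 1)), 0 < f t
  top : s (J - 1) = c
  kap0 : 4 * fp f 0 ≤ s 0 ^ 2

/-- one component `(b0,b)` -/
structure Comp (f : ℝ → ℝ) (b0 b c : ℝ) (y : ℝ → ℝ) : Prop where
  lt : b0 < b
  fb0 : f b0 = 0
  fb : f b = 0
  ext : Extr f b c y
  pos : ∀ τ ∈ Ioo 0 (b - b0), 0 < y τ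
  hit : y (b - b0) = 0
  near : ∃ δ > 0, b0 ≤ b - δ ∧ ∀ t ∈ Ioo (b - δ) b, 0 < f t

theorem chain_one {f y : ℝ → ℝ} {b c : ℝ} (h : Comp f 0 b c y) (hk : 4 * fp f 0 ≤ c ^ 2) :
    ∃ (J : ℕ) (β s : ℕ → ℝ) (y' : ℕ → ℝ → ℝ), Chain f b c J β s y' := by
  refine ⟨1, fun j => if j = 0 then 0 else b, fun _ => c, fun _ => y, ?_⟩
  refine ⟨one_pos, by simp, by simp, ?_, ?_, ?_, ?_, ?_, ?_, ?_, rfl, hk⟩
  · intro j hj
    interval_cases j
    simpa using h.lt
  · intro j hj
    interval_cases j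
    · simpa using h.fb0
    · simpa using h.fb
  · intro j hj
    interval_cases j
    simpa using h.ext
  · intro j hj
    interval_cases j
    simpa using h.pos
  · intro j hj
    interval_cases j
    simpa using h.hit
  · intro j hj
    omega
  · intro j hj
    interval_cases j
    simpa using h.near

theorem chain_succ {f y : ℝ → ℝ} {b0 b c c1 : ℝ} (h0 : Comp f b0 b c y) (hc : c ≤ c1)
    {J : ℕ} {β s : ℕ → ℝ} {y' : ℕ → ℝ → ℝ} (h : Chain f b0 c1 J β s y') :
    ∃ (J : ℕ) (β s : ℕ → ℝ) (y' : ℕ → ℝ → ℝ), Chain f b c J β s y' := by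
  have hJ := h.J0
  refine ⟨J + 1, fun j => if j ≤ J then β j else b, fun j => if j < J then s j else c,
    fun j => if j < J then y' j else y, ?_⟩
  -- every statement about a component reduces to `h` or `h0`
  have hcomp : ∀ j < J + 1, Comp f ((fun j => if j ≤ J then β j else b) j)
      ((fun j => if j ≤ J then β j else b) (j + 1)) ((fun j => if j < J then s j else c) j)
      ((fun j => if j < J then y' j else y) j) := by
    intro j hj
    have hj' : j ≤ J := by omega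
    rcases Nat.lt_or_ge j J with h1 | h1
    · have h2 : j + 1 ≤ J := by omega
      simp only [hj', h2, if_true, h1]
      exact ⟨h.lt j h1, h.zer j hj', h.zer (j + 1) h2, h.ext j h1, h.pos j h1, h.hit j h1,
        h.near j h1⟩
    · have h3 : j = J := by omega
      subst h3
      simp only [le_refl, if_true, show ¬ (j + 1 ≤ j) by omega, if_false, h.bJ, lt_irrefl]
      exact h0
  refine ⟨by omega, by simp [h.b0], by simp, fun j hj => (hcomp j hj).lt, ?_,
    fun j hj => (hcomp j hj).ext, fun j hj => (hcomp j hj).pos, fun j hj => (hcomp j hj).hit, ?_,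
    fun j hj => (hcomp j hj).near, by simp, ?_⟩
  · intro j hj
    rcases Nat.lt_or_ge J j with h1 | h1
    · simp only [show ¬ (j ≤ J) by omega, if_false]
      exact h0.fb
    · simp only [h1, if_true]
      exact h.zer j h1
  · intro j hj
    have h1 : j < J := by omega
    rcases Nat.lt_or_ge (j + 1) J with h2 | h2
    · simp only [h1, h2, if_true]
      exact h.mono j h2
    · have h3 : ¬ (j + 1 < J) := by omega
      simp only [h1, h3, if_true, if_false]
      have h4 : j = J - 1 := by omega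
      rw [h4, h.top]
      exact hc
  · simp only [hJ, if_true]
    exact h.kap0

/-- `f'(b) ≤ 0` if `f(b) = 0` and `f > 0` just below `b` -/
theorem fp_nonpos {f : ℝ → ℝ} (h : Reaction f) {b δ : ℝ} (hb0 : 0 < b) (hb1 : b ≤ 1)
    (hfb : f b = 0) (hδ : 0 < δ) (hpos : ∀ s ∈ Ioo (b - δ) b, 0 < f s) : fp f b ≤ 0 := by
  have hd : DifferentiableOn ℝ f (Icc 0 1) := h.smooth.differentiableOn one_ne_zero
  have h0 : HasDerivWithinAt f (fp f b) (Icc 0 1) b := (hd b ⟨hb0.le, hb1⟩).hasDerivWithinAt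
  by_contra hcon
  push Not at hcon
  have h1 := (hasDerivWithinAt_iff_isLittleO.1 h0).def (show (0 : ℝ) < fp f b / 2 by linarith)
  rw [eventually_nhdsWithin_iff, Metric.eventually_nhds_iff] at h1
  obtain ⟨ε, hε, h1⟩ := h1
  -- a point `s` just below `b`
  set η := min (min (δ / 2) (ε / 2)) (b / 2) with hη
  have hη0 : 0 < η := by simp only [hη, lt_min_iff]; exact ⟨⟨by linarith, by linarith⟩, by linarith⟩
  have hη1 : η ≤ δ / 2 := (min_le_left _ _).trans (min_le_left _ _)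
  have hη2 : η ≤ ε / 2 := (min_le_left _ _).trans (min_le_right _ _)
  have hη3 : η ≤ b / 2 := min_le_right _ _
  have hdist : dist (b - η) b < ε := by
    rw [Real.dist_eq, show b - η - b = -η by ring, abs_neg, abs_of_pos hη0]
    linarith
  have h2 := h1 (y := b - η) hdist ⟨by linarith, by linarith⟩
  have h3 := hpos (b - η) ⟨by linarith, by linarith⟩
  rw [hfb, sub_zero, show b - η - b = -η by ring, Real.norm_eq_abs, Real.norm_eq_abs, abs_neg,
    abs_of_pos hη0, smul_eq_mul] at h2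
  have := (abs_le.1 h2).2
  nlinarith

theorem pf_TER (hLIP : T_LIP) (hTE1 : T_TE1) (hTE2 : T_TE2) (hTE3 : T_TE3) (hTE4 : T_TE4)
    (hEXTR : T_EXTR) (hFZ : T_FZ) (hSPD : T_SPD) (hWAV : T_WAV) (hF0P : T_F0P) : T_TER := by
  intro N f ρ hN hf hρ hinv
  obtain ⟨K, hK⟩ := hLIP f hf
  obtain ⟨δ1, hδ1, hδ1', hp1⟩ := hTE1 N f K ρ hN hf hK hρ hinv
  have hint1 := hTE2 N f K ρ hN hf hK hρ hinv
  obtain ⟨cst, y1, hex1⟩ := hEXTR f K 1 hK one_pos le_rfl hf.one
    ⟨1 - δ1, by linarith, by linarith, hp1⟩ hint1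
  obtain ⟨δ, hδ, hlen⟩ := hTE4 f K cst hf hK hex1.cpos
  have key : ∀ n : ℕ, ∀ b c : ℝ, ∀ y : ℝ → ℝ, 0 < b → b ≤ 1 → f b = 0 →
      (∃ η > 0, η ≤ b ∧ ∀ s ∈ Ioo (b - η) b, 0 < f s) → Extr f b c y → cst ≤ c →
      b < (n + 1) * δ → ∃ (J : ℕ) (β s : ℕ → ℝ) (y' : ℕ → ℝ → ℝ), Chain f b c J β s y' := by
    intro n
    induction n with
    | zero =>
      intro b c y hb0 hb1 hfb hnear hex hc hbn
      obtain ⟨β, hβ0, hβb, hypos, hyz, hfβ, hint⟩ := hFZ f K b c y hK hb0 hb1 hfb hex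
      have := hlen b c β y hb0 hb1 hfb hex hc hβ0 hβb hypos hyz hfβ
      norm_num at hbn
      linarith
    | succ n ih =>
      intro b c y hb0 hb1 hfb hnear hex hc hbn
      obtain ⟨β, hβ0, hβb, hypos, hyz, hfβ, hint⟩ := hFZ f K b c y hK hb0 hb1 hfb hex
      have hl := hlen b c β y hb0 hb1 hfb hex hc hβ0 hβb hypos hyz hfβ
      obtain ⟨φ, hw, hφ⟩ := hWAV f K b β c y hK hβ0 hβb hb1 hfb hfβ hex.cpos hex.isy hypos hyz
      have hcomp : Comp f β b c y := by
        refine ⟨hβb, hfβ, hfb, hex, hypos, hyz, ?_⟩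
        obtain ⟨η, hη, _, hp⟩ := hnear
        refine ⟨min η (b - β), lt_min hη (by linarith), ?_, fun t ht => hp t ⟨?_, ht.2⟩⟩
        · have := min_le_right η (b - β); linarith
        · have := min_le_left η (b - β); linarith [ht.1]
      rcases hβ0.eq_or_lt with h0 | h0
      · subst h0
        exact chain_one hcomp (hF0P f φ b c hf hb0 hb1 hw)
      · have hβ1 : β ≤ 1 := by linarith
        obtain ⟨η, hη, hηβ, hp⟩ := hTE3 f K b c β y hf hK hb0 hb1 hfb hex h0 hβb hypos hyz hfβ hint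
        have hbel : ∃ b' < β, 0 ≤ b' ∧ ∀ s ∈ Ioo b' β, 0 < f s :=
          ⟨β - η, by linarith, by linarith, hp⟩
        obtain ⟨c1, y1, hex1⟩ := hEXTR f K β hK h0 hβ1 hfβ hbel hint
        have hle : c ≤ c1 := hSPD f K b β c y hK h0 hβb hb1 hfb hfβ hbel hex hypos hyz c1 y1 hex1
        obtain ⟨J, β', s, y', hch⟩ := ih β c1 y1 h0 hβ1 hfβ ⟨η, hη, hηβ, hp⟩ hex1 (hc.trans hle)
          (by push_cast at hbn; linarith)
        exact chain_succ hcomp hle hch
  obtain ⟨n, hn⟩ := exists_nat_gt (1 / δ)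
  have hn' : (1 : ℝ) < (n + 1) * δ := by
    rw [div_lt_iff₀ hδ] at hn
    linarith
  obtain ⟨J, b, c, y, h⟩ := key n 1 cst y1 one_pos le_rfl hf.one ⟨δ1, hδ1, hδ1', hp1⟩ hex1 le_rfl hn'
  have hb0 : ∀ j, j ≤ J → 0 ≤ b j ∧ (0 < j → 0 < b j) := by
    intro j
    induction j with
    | zero => intro _; exact ⟨h.b0.ge, fun h => absurd h (lt_irrefl _)⟩
    | succ j ih =>
      intro hj
      have := h.lt j (by omega)
      have := (ih (by omega)).1
      exact ⟨by linarith, fun _ => by linarith⟩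
  have hb1 : ∀ k, k ≤ J → b (J - k) ≤ 1 := by
    intro k
    induction k with
    | zero => intro _; rw [Nat.sub_zero, h.bJ]
    | succ k ih =>
      intro hk
      have h1 := h.lt (J - (k + 1)) (by omega)
      rw [show J - (k + 1) + 1 = J - k by omega] at h1
      linarith [ih (by omega)]
  have hb1' : ∀ j ≤ J, b j ≤ 1 := fun j hj => by
    have := hb1 (J - j) (by omega)
    rwa [show J - (J - j) = j by omega] at this
  have htop : ∀ j < J, fp f (b (j + 1)) ≤ 0 := by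
    intro j hj
    obtain ⟨η, hη, _, hp⟩ := h.near j hj
    exact fp_nonpos hf ((hb0 (j + 1) hj).2 (by omega)) (hb1' (j + 1) hj) (h.zer (j + 1) hj) hη hp
  refine ⟨J, b, c, y, ⟨h.J0, h.b0, h.bJ, h.lt, h.zer, h.ext, h.pos, h.hit, h.mono, h.near, ?_,
    htop⟩⟩
  intro j hj
  rcases Nat.eq_zero_or_pos j with h0 | h0
  · subst h0
    rw [h.b0]; exact h.kap0
  · have h1 := htop (j - 1) (by omega)
    rw [show j - 1 + 1 = j by omega] at h1
    have := sq_nonneg (c j)
    linarith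

end Pool.Agent.H41.RF.TER
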